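import Pool.Agent.H699R2.U

/-!
# Reals with Diophantine cuts
-/

open Filter Topology

namespace Pool.Agent.Y403.RF

noncomputable section

open Pool.Agent.H699R2

/-- The rational numbers below `ρ` and those above `ρ` form Diophantine sets; the natural numbers
`u 0, u 1, u 2` stand for `(u 0 - u 1) / u 2`. -/
def DiophCuts (ρ : ℝ) : Prop :=
  Dioph {u : Fin 3 → ℕ | 0 < u 2 ∧ (u 0 : ℝ) - u 1 < ρ * u 2} ∧
    Dioph {u : Fin 3 → ℕ | 0 < u 2 ∧ ρ * u 2 < (u 0 : ℝ) - u 1}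

theorem lower_iff (a s : ℝ) (hs : 0 < s) : a < Real.exp 1 * s ↔
    ∃ n : ℕ, 1 ≤ n ∧ a * (n : ℝ) ^ n < s * ((n : ℝ) + 1) ^ n := by
  constructor
  · intro h
    have h1 : a / s < Real.exp 1 := by rwa [div_lt_iff₀ hs]
    obtain ⟨N, hN⟩ := eventually_atTop.1 (tendsto_lower.eventually (lt_mem_nhds h1))
    refine ⟨N + 1, by omega, ?_⟩
    have h2 := hN (N + 1) (by omega)
    have hn0 : (0 : ℝ) < (((N + 1 : ℕ) : ℝ)) ^ (N + 1) := by positivity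
    rw [lt_div_iff₀ hn0, div_mul_eq_mul_div, div_lt_iff₀ hs] at h2
    linarith
  · rintro ⟨n, hn, h⟩
    have h1 := lt_exp_one hn
    have hn0 : (0 : ℝ) < n := by exact_mod_cast hn
    have hp : (0 : ℝ) < (n : ℝ) ^ n := by positivity
    rw [div_le_iff₀ hp] at h1
    by_contra hcon
    push Not at hcon
    have h2 : s * ((n : ℝ) + 1) ^ n ≤ s * (Real.exp 1 * (n : ℝ) ^ n) := by gcongr
    have h3 : Real.exp 1 * s * (n : ℝ) ^ n ≤ a * (n : ℝ) ^ n := by gcongr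
    linarith

theorem upper_iff (a s : ℝ) (hs : 0 < s) : Real.exp 1 * s < a ↔
    ∃ n : ℕ, 1 ≤ n ∧ s * ((n : ℝ) + 1) ^ (n + 1) < a * (n : ℝ) ^ (n + 1) := by
  constructor
  · intro h
    have h1 : Real.exp 1 < a / s := by rwa [lt_div_iff₀ hs]
    obtain ⟨N, hN⟩ := eventually_atTop.1 (tendsto_upper.eventually (gt_mem_nhds h1))
    refine ⟨N + 1, by omega, ?_⟩
    have h2 := hN (N + 1) (by omega)
    have hn0 : (0 : ℝ) < (((N + 1 : ℕ) : ℝ)) ^ (N + 1 + 1) := by positivity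
    rw [div_lt_iff₀ hn0, div_mul_eq_mul_div, lt_div_iff₀ hs] at h2
    linarith
  · rintro ⟨n, hn, h⟩
    have h1 := exp_one_le hn
    have hn0 : (0 : ℝ) < n := by exact_mod_cast hn
    have hp : (0 : ℝ) < (n : ℝ) ^ (n + 1) := by positivity
    rw [le_div_iff₀ hp] at h1
    by_contra hcon
    push Not at hcon
    have h2 : s * (Real.exp 1 * (n : ℝ) ^ (n + 1)) ≤ s * ((n : ℝ) + 1) ^ (n + 1) := by gcongr
    have h3 : a * (n : ℝ) ^ (n + 1) ≤ Real.exp 1 * s * (n : ℝ) ^ (n + 1) := by gcongr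
    linarith

/-- `e` has Diophantine cuts -/
theorem diophCuts_exp : DiophCuts (Real.exp 1) := by
  have p0 : Dioph.DiophFn (fun u : Fin 3 ⊕ Unit → ℕ => u (Sum.inl 0)) := Dioph.proj_dioph _
  have p1 : Dioph.DiophFn (fun u : Fin 3 ⊕ Unit → ℕ => u (Sum.inl 1)) := Dioph.proj_dioph _
  have p2 : Dioph.DiophFn (fun u : Fin 3 ⊕ Unit → ℕ => u (Sum.inl 2)) := Dioph.proj_dioph _
  have pn : Dioph.DiophFn (fun u : Fin 3 ⊕ Unit → ℕ => u (Sum.inr ())) := Dioph.proj_dioph _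
  have h1 : Dioph.DiophFn (fun _ : Fin 3 ⊕ Unit → ℕ => 1) := Dioph.const_dioph 1
  have h0 : Dioph.DiophFn (fun _ : Fin 3 ⊕ Unit → ℕ => 0) := Dioph.const_dioph 0
  have pn1 := Dioph.add_dioph pn h1
  constructor
  · have e1 := Dioph.lt_dioph (Dioph.mul_dioph p0 (Dioph.pow_dioph pn pn))
      (Dioph.add_dioph (Dioph.mul_dioph p2 (Dioph.pow_dioph pn1 pn))
        (Dioph.mul_dioph p1 (Dioph.pow_dioph pn pn)))
    refine (Dioph.ex_dioph (((Dioph.lt_dioph h0 p2).inter (Dioph.le_dioph h1 pn)).inter e1)).ext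
      fun u => ?_
    have key : ∀ n : ℕ, (u 0 * n ^ n < u 2 * (n + 1) ^ n + u 1 * n ^ n) ↔
        ((u 0 : ℝ) - u 1) * (n : ℝ) ^ n < (u 2 : ℝ) * ((n : ℝ) + 1) ^ n := by
      intro n
      rw [sub_mul, sub_lt_iff_lt_add]
      exact_mod_cast Iff.rfl
    constructor
    · rintro ⟨x, ⟨hx1, hx2⟩, hx3⟩
      have hx1' : 0 < u 2 := hx1
      refine ⟨hx1', ?_⟩
      rw [lower_iff _ _ (by exact_mod_cast hx1')]
      exact ⟨x (), hx2, (key _).1 hx3⟩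
    · rintro ⟨hu, h⟩
      rw [lower_iff _ _ (by exact_mod_cast hu)] at h
      obtain ⟨n, hn, h⟩ := h
      exact ⟨fun _ => n, ⟨hu, hn⟩, (key n).2 h⟩
  · have e1 := Dioph.lt_dioph (Dioph.add_dioph (Dioph.mul_dioph p2 (Dioph.pow_dioph pn1 pn1))
        (Dioph.mul_dioph p1 (Dioph.pow_dioph pn pn1))) (Dioph.mul_dioph p0 (Dioph.pow_dioph pn pn1))
    refine (Dioph.ex_dioph (((Dioph.lt_dioph h0 p2).inter (Dioph.le_dioph h1 pn)).inter e1)).ext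
      fun u => ?_
    have key : ∀ n : ℕ, (u 2 * (n + 1) ^ (n + 1) + u 1 * n ^ (n + 1) < u 0 * n ^ (n + 1)) ↔
        (u 2 : ℝ) * ((n : ℝ) + 1) ^ (n + 1) < ((u 0 : ℝ) - u 1) * (n : ℝ) ^ (n + 1) := by
      intro n
      rw [sub_mul, lt_sub_iff_add_lt]
      exact_mod_cast Iff.rfl
    constructor
    · rintro ⟨x, ⟨hx1, hx2⟩, hx3⟩
      have hx1' : 0 < u 2 := hx1
      refine ⟨hx1', ?_⟩
      rw [upper_iff _ _ (by exact_mod_cast hx1')]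
      exact ⟨x (), hx2, (key _).1 hx3⟩
    · rintro ⟨hu, h⟩
      rw [upper_iff _ _ (by exact_mod_cast hu)] at h
      obtain ⟨n, hn, h⟩ := h
      exact ⟨fun _ => n, ⟨hu, hn⟩, (key n).2 h⟩

theorem exists_code (q : ℚ) : ∃ u : Fin 3 → ℕ, 0 < u 2 ∧ ((u 0 : ℝ) - u 1) = q * u 2 := by
  refine ⟨![q.num.toNat, (-q.num).toNat, q.den], q.den_pos, ?_⟩
  have h1 : ((q.num.toNat : ℤ) - ((-q.num).toNat : ℤ)) = q.num := by omega
  have h2 : ((q.num.toNat : ℝ) - ((-q.num).toNat : ℝ)) = q.num := by exact_mod_cast h1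
  have h3 : (q : ℝ) = q.num / q.den := by
    conv_lhs => rw [← Rat.num_div_den q]
    push_cast
    rfl
  have h4 : (q.den : ℝ) ≠ 0 := by exact_mod_cast q.den_ne_zero
  simp only [Matrix.cons_val_zero, Matrix.cons_val_one, Matrix.cons_val]
  rw [h2, h3]
  field_simp

theorem ne_iff_cuts (ρ r : ℝ) : r ≠ ρ ↔
    (∃ u ∈ {u : Fin 3 → ℕ | 0 < u 2 ∧ (u 0 : ℝ) - u 1 < ρ * u 2}, r * u 2 < (u 0 : ℝ) - u 1) ∨
    (∃ u ∈ {u : Fin 3 → ℕ | 0 < u 2 ∧ ρ * u 2 < (u 0 : ℝ) - u 1}, (u 0 : ℝ) - u 1 < r * u 2) := by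
  constructor
  · intro h
    rcases lt_or_gt_of_ne h with h1 | h1
    · obtain ⟨q, hq1, hq2⟩ := exists_rat_btwn h1
      obtain ⟨u, hu, hu'⟩ := exists_code q
      have hu2 : (0 : ℝ) < u 2 := by exact_mod_cast hu
      exact Or.inl ⟨u, ⟨hu, by rw [hu']; gcongr⟩, by rw [hu']; gcongr⟩
    · obtain ⟨q, hq1, hq2⟩ := exists_rat_btwn h1
      obtain ⟨u, hu, hu'⟩ := exists_code q
      have hu2 : (0 : ℝ) < u 2 := by exact_mod_cast hu
      exact Or.inr ⟨u, ⟨hu, by rw [hu']; gcongr⟩, by rw [hu']; gcongr⟩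
  · rintro (⟨u, ⟨h1, h2⟩, h3⟩ | ⟨u, ⟨h1, h2⟩, h3⟩) rfl
    · exact lt_irrefl _ (h2.trans h3)
    · exact lt_irrefl _ (h2.trans h3)

/-- For a real `ρ` with Diophantine cuts the set of the constants different from `ρ` is
Diophantine in `ℝ(t)`, over `ℤ[t]`. -/
theorem ne_cuts_TD {ρ : ℝ} (hρ : DiophCuts ρ) :
    ∃ (β : Type) (_ : Finite β) (p : MvPolynomial (Option (Unit ⊕ β)) ℤ),
    ∀ r : ℝ, r ≠ ρ ↔ ∃ w : β → RatFunc ℝ, MvPolynomial.aeval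
      (fun o => o.elim RatFunc.X (Sum.elim (fun _ => RatFunc.C r) w)) p = 0 := by
  have part : ∀ (D : Set (Fin 3 → ℕ)), Dioph D → ∀ sgn : ℤ,
      TD (fun v : Unit → RatFunc ℝ => ∃ x : Fin 3 → RatFunc ℝ,
        (∃ u ∈ D, x = fun i => ((u i : ℕ) : RatFunc ℝ)) ∧
        (∃ z : Unit → RatFunc ℝ, (sgn : RatFunc ℝ) * ((x 0 - x 1) - v () * x 2) * z () ^ 2 = 1)) := by
    intro D hD sgn
    refine TD.ex (S := fun s : Unit ⊕ Fin 3 → RatFunc ℝ =>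
      (∃ u ∈ D, (fun i => s (Sum.inr i)) = fun i => ((u i : ℕ) : RatFunc ℝ)) ∧
      (∃ z : Unit → RatFunc ℝ, (sgn : RatFunc ℝ) *
        ((s (Sum.inr 0) - s (Sum.inr 1)) - s (Sum.inl ()) * s (Sum.inr 2)) * z () ^ 2 = 1)) ?_
    refine TD.and ?_ ?_
    · exact TD.comp (dioph_TD hD) (f := fun i s => s (Sum.inr i)) fun i => PolyF.var _
    · refine TD.ex (S := fun s : (Unit ⊕ Fin 3) ⊕ Unit → RatFunc ℝ =>
        (sgn : RatFunc ℝ) * ((s (Sum.inl (Sum.inr 0)) - s (Sum.inl (Sum.inr 1))) -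
          s (Sum.inl (Sum.inl ())) * s (Sum.inl (Sum.inr 2))) * s (Sum.inr ()) ^ 2 = 1) ?_
      exact TD.eq (((PolyF.int sgn).mul ((((PolyF.var _).sub (PolyF.var _))).sub
        ((PolyF.var _).mul (PolyF.var _)))).mul ((PolyF.var _).pow 2)) PolyF.one
  obtain ⟨β, hβ, p, hp⟩ := TD.or (part _ hρ.1 1) (part _ hρ.2 (-1))
  refine ⟨β, hβ, p, fun r => ?_⟩
  rw [← hp, ne_iff_cuts]
  have hnat : ∀ m : ℕ, (m : RatFunc ℝ) = RatFunc.C (m : ℝ) := fun m => by simp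
  have one_side : ∀ (D : Set (Fin 3 → ℕ)) (sgn : ℤ),
      (∃ u ∈ D, 0 < (sgn : ℝ) * (((u 0 : ℝ) - u 1) - r * u 2)) ↔
      (∃ x : Fin 3 → RatFunc ℝ,
        (∃ u ∈ D, x = fun i => ((u i : ℕ) : RatFunc ℝ)) ∧
        (∃ z : Unit → RatFunc ℝ, (sgn : RatFunc ℝ) *
          ((x 0 - x 1) - (fun _ : Unit => RatFunc.C r) () * x 2) * z () ^ 2 = 1)) := by
    intro D sgn
    have e : ∀ u : Fin 3 → ℕ, (sgn : RatFunc ℝ) * ((((u 0 : ℕ) : RatFunc ℝ) - ((u 1 : ℕ) : RatFunc ℝ)) -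
        RatFunc.C r * ((u 2 : ℕ) : RatFunc ℝ)) =
        RatFunc.C ((sgn : ℝ) * (((u 0 : ℝ) - u 1) - r * u 2)) := by
      intro u
      simp
    constructor
    · rintro ⟨u, hu, h⟩
      obtain ⟨z, hz⟩ := (pos_iff _).1 h
      refine ⟨_, ⟨u, hu, rfl⟩, fun _ => z, ?_⟩
      show (sgn : RatFunc ℝ) * ((((u 0 : ℕ) : RatFunc ℝ) - ((u 1 : ℕ) : RatFunc ℝ)) -
        RatFunc.C r * ((u 2 : ℕ) : RatFunc ℝ)) * z ^ 2 = 1
      rw [e]
      exact hz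
    · rintro ⟨x, ⟨u, hu, rfl⟩, z, hz⟩
      refine ⟨u, hu, (pos_iff _).2 ⟨z (), ?_⟩⟩
      rw [← e]
      exact hz
  refine or_congr ?_ ?_
  · rw [← one_side]
    refine exists_congr fun u => and_congr_right fun _ => ?_
    push_cast
    constructor <;> intro h <;> linarith
  · rw [← one_side]
    refine exists_congr fun u => and_congr_right fun _ => ?_
    push_cast
    constructor <;> intro h <;> linarith

end

end Pool.Agent.Y403.RF
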