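import Pool.Agent.H699R2.Sem
import Pool.Agent.Y403.RF.Transfer

/-!
# Points with coordinates in `F(t)`
-/

open Filter Topology Polynomial

namespace Pool.Agent.Y403.RF

noncomputable section

open Pool.Agent.H699R2 (exists_subst X_ne_C aeval_int_eq const_of_sq)

variable {F : IntermediateField ℚ ℝ}

/-- real square root of an element of `F` -/
theorem sqrt_mem [hF : Fact (∀ x : ℝ, IsAlgebraic F x → x ∈ F)] {a : F} (ha : 0 ≤ (a : ℝ)) :
    ∃ b : F, b ^ 2 = a := by
  have h1 : Real.sqrt (a : ℝ) ∈ F := by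
    apply hF.out
    refine IsAlgebraic.of_pow (n := 2) (by norm_num) ?_
    rw [Real.sq_sqrt ha]
    exact isAlgebraic_algebraMap (R := F) (A := ℝ) a
  refine ⟨⟨_, h1⟩, ?_⟩
  apply Subtype.ext
  simp [Real.sq_sqrt ha]

/-- Polynomials over `ℤ` in the variables `t`, a real algebraic constant and further unknowns:
solvability passes from `ℝ(t)` to `k(t)`. -/
theorem transfer_point [hF : Fact (∀ x : ℝ, IsAlgebraic F x → x ∈ F)]
    {β : Type} [Finite β] (p : MvPolynomial (Option (Unit ⊕ β)) ℤ) (r : F)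
    (w : β → RatFunc ℝ)
    (hw : MvPolynomial.aeval (fun o : Option (Unit ⊕ β) =>
      o.elim RatFunc.X (Sum.elim (fun _ => RatFunc.C (r : ℝ)) w)) p = 0) :
    ∃ w' : β → RatFunc F, MvPolynomial.aeval (fun o : Option (Unit ⊕ β) =>
      o.elim RatFunc.X (Sum.elim (fun _ => RatFunc.C r) w')) p = 0 := by
  classical
  obtain ⟨m, ⟨eq⟩⟩ := Finite.exists_equiv_fin β
  obtain ⟨ι, l, hl, w', hw'⟩ := transfer F m (w ∘ eq.symm)
  let P : MvPolynomial (Fin m) (F)[X] := MvPolynomial.aeval (fun o : Option (Unit ⊕ β) =>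
    o.elim (MvPolynomial.C Polynomial.X) (Sum.elim (fun _ => MvPolynomial.C (Polynomial.C r))
      (fun b => MvPolynomial.X (eq b)))) p
  have key : ∀ (K : Type) [Field K] (τ : (F)[X] →+* K) (v : Fin m → K),
      MvPolynomial.eval₂ τ v P = MvPolynomial.eval₂ (Int.castRingHom K) (fun o : Option (Unit ⊕ β) =>
        o.elim (τ Polynomial.X) (Sum.elim (fun _ => τ (Polynomial.C r)) (v ∘ eq))) p := by
    intro K _ τ v
    have h1 : ((MvPolynomial.eval₂Hom τ v).comp
        (MvPolynomial.aeval (fun o : Option (Unit ⊕ β) =>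
          o.elim (MvPolynomial.C Polynomial.X) (Sum.elim (fun _ => MvPolynomial.C (Polynomial.C r))
          (fun b => MvPolynomial.X (eq b)))) : MvPolynomial (Option (Unit ⊕ β)) ℤ →ₐ[ℤ]
          MvPolynomial (Fin m) (F)[X]).toRingHom) =
        (MvPolynomial.eval₂Hom (Int.castRingHom K) (fun o : Option (Unit ⊕ β) =>
        o.elim (τ Polynomial.X) (Sum.elim (fun _ => τ (Polynomial.C r)) (v ∘ eq)))) := by
      apply MvPolynomial.ringHom_ext
      · intro n
        simp
      · intro o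
        rcases o with _ | (_ | b)
        · simp
        · simp
        · simp
    exact congrArg (fun f => f p) h1
  obtain ⟨i, hi⟩ := (hw' P).exists
  have h2 := key (RatFunc ℝ) (tauR F) (w ∘ eq.symm)
  have h3 := key (RatFunc F) (tauA F) (w' i)
  have h4 : (w ∘ eq.symm) ∘ eq = w := by
    funext b
    simp
  have h5 : (tauR F) Polynomial.X = RatFunc.X := by
    simp [tauR]
  have h6 : (tauR F) (Polynomial.C r) = RatFunc.C (r : ℝ) := by
    simp [tauR]
  have h7 : (tauA F) Polynomial.X = RatFunc.X := by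
    simp [tauA]
  have h8 : (tauA F) (Polynomial.C r) = RatFunc.C r := by
    simp [tauA]
  rw [h4, h5, h6] at h2
  rw [h7, h8] at h3
  refine ⟨w' i ∘ eq, ?_⟩
  rw [aeval_int_eq] at hw ⊢
  rw [← h3]
  rw [hw] at h2
  exact hi.2 h2

end

end Pool.Agent.Y403.RF
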