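import Pool.Agent.H699R2.Logic
import Pool.Agent.Y403.RF.Sem

/-!
# Existential formulas go down from `ℝ(t)` to `F(t)`
-/

open Filter Topology Polynomial FirstOrder FirstOrder.Language

namespace Pool.Agent.Y403.RF

noncomputable section

open Pool.Agent.H699R2 (exists_poly)

variable {F : IntermediateField ℚ ℝ}

/-- a quantifier-free formula, true for some tuple of `ℝ(t)`, is true for some tuple of `k(t)` -/
theorem qf_down [hF : Fact (∀ x : ℝ, IsAlgebraic F x → x ∈ F)] {k : ℕ} {φ : Language.ring.BoundedFormula Empty k} (hφ : φ.IsQF)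
    [Ring.CompatibleRing (RatFunc ℝ)] [Ring.CompatibleRing (RatFunc F)]
    (v : Empty → RatFunc ℝ) (v' : Empty → RatFunc F)
    (xs : Fin k → RatFunc ℝ) (h : φ.Realize v xs) :
    ∃ xs' : Fin k → RatFunc F, φ.Realize v' xs' := by
  obtain ⟨ι, l, hl, w', hw'⟩ := transfer F k xs
  have hP : ∀ P : MvPolynomial (Fin k) ℤ, ∀ᶠ i in l,
      (MvPolynomial.eval₂ (Int.castRingHom (RatFunc F)) (w' i) P = 0 ↔
        MvPolynomial.eval₂ (Int.castRingHom (RatFunc ℝ)) xs P = 0) := by
    intro P
    filter_upwards [hw' (MvPolynomial.map (Int.castRingHom _) P)] with i hi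
    rw [MvPolynomial.eval₂_map, MvPolynomial.eval₂_map] at hi
    rwa [RingHom.ext_int ((tauA F).comp (Int.castRingHom _)) (Int.castRingHom (RatFunc F)),
      RingHom.ext_int ((tauR F).comp (Int.castRingHom _)) (Int.castRingHom (RatFunc ℝ))] at hi
  have key : ∀ᶠ i in l, (φ.Realize v' (w' i) ↔ φ.Realize v xs) := by
    clear h
    induction hφ with
    | falsum => exact Filter.Eventually.of_forall fun i => Iff.rfl
    | of_isAtomic h =>
      cases h with
      | equal t₁ t₂ =>
        obtain ⟨P1, h1⟩ := exists_poly t₁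
        obtain ⟨P2, h2⟩ := exists_poly t₂
        filter_upwards [hP (P1 - P2)] with i hi
        rw [BoundedFormula.realize_bdEqual, BoundedFormula.realize_bdEqual, h1, h2, h1, h2,
          ← sub_eq_zero, ← sub_eq_zero (a := MvPolynomial.eval₂ _ xs P1)]
        rw [MvPolynomial.eval₂_sub, MvPolynomial.eval₂_sub] at hi
        exact hi
      | rel R ts => exact R.elim
    | imp _ _ ih1 ih2 =>
      filter_upwards [ih1, ih2] with i hi1 hi2
      rw [BoundedFormula.realize_imp, BoundedFormula.realize_imp, hi1, hi2]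
  obtain ⟨i, hi⟩ := key.exists
  exact ⟨w' i, hi.2 h⟩

theorem ex_down [hF : Fact (∀ x : ℝ, IsAlgebraic F x → x ∈ F)] {k : ℕ} {φ : Language.ring.BoundedFormula Empty k} (hφ : φ.IsExistential)
    [Ring.CompatibleRing (RatFunc ℝ)] [Ring.CompatibleRing (RatFunc F)]
    (v : Empty → RatFunc ℝ) (v' : Empty → RatFunc F)
    (xs : Fin k → RatFunc ℝ) (h : φ.Realize v xs) :
    ∃ xs' : Fin k → RatFunc F, φ.Realize v' xs' := by
  induction hφ with
  | of_isQF hq => exact qf_down hq v v' xs h
  | ex _ ih =>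
    rw [BoundedFormula.realize_ex] at h
    obtain ⟨a, ha⟩ := h
    obtain ⟨xs', hx⟩ := ih _ ha
    refine ⟨fun i => xs' i.castSucc, ?_⟩
    rw [BoundedFormula.realize_ex]
    refine ⟨xs' (Fin.last _), ?_⟩
    have h3 : (Fin.snoc (fun i => xs' i.castSucc) (xs' (Fin.last _)) : Fin (_ + 1) → _)
          = xs' := Fin.snoc_init_self xs'
    rw [h3]
    exact hx

end

end Pool.Agent.Y403.RF
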