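import Pool.Agent.Y403.RF.Logic
import Pool.Agent.Y403.RF.Cuts

/-!
# `Σ_2` sentences about `F(t)` that say whether a real number with Diophantine cuts is in `F`

Adapted from the starting result `LeastSigma` of MP_397872_lc.
-/

open Filter Topology Polynomial FirstOrder FirstOrder.Language Pool.Agent.H699R2

namespace Pool.Agent.Y403.RF

/-- `Blocks e n φ`: the formula `φ` of the language of rings is prenex with a quantifier-free
matrix, and its quantifiers form exactly `n` alternating (nonempty) blocks of like quantifiers, the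
first block being existential if `e` is `true` and universal if `e` is `false`. -/
inductive Blocks : Bool → ℕ → ∀ {k : ℕ}, Language.ring.BoundedFormula Empty k → Prop
  | qf {e : Bool} {k : ℕ} {φ : Language.ring.BoundedFormula Empty k} (h : φ.IsQF) : Blocks e 0 φ
  | ex {n k : ℕ} {φ : Language.ring.BoundedFormula Empty (k + 1)} (h : Blocks false n φ) :
      Blocks true (n + 1) φ.ex
  | ex_same {n k : ℕ} {φ : Language.ring.BoundedFormula Empty (k + 1)}
      (h : Blocks true (n + 1) φ) : Blocks true (n + 1) φ.ex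
  | all {n k : ℕ} {φ : Language.ring.BoundedFormula Empty (k + 1)} (h : Blocks true n φ) :
      Blocks false (n + 1) φ.all
  | all_same {n k : ℕ} {φ : Language.ring.BoundedFormula Empty (k + 1)}
      (h : Blocks false (n + 1) φ) : Blocks false (n + 1) φ.all

/-- `Holds R φ`: the sentence `φ` of the language of rings is true in the commutative ring `R`. -/
def Holds (R : Type) [CommRing R] (φ : Language.ring.Sentence) : Prop :=
  letI := FirstOrder.Ring.compatibleRingOfRing R
  R ⊨ φ

theorem holds_iff {R : Type} [CommRing R] (φ : Language.ring.Sentence) (v : Empty → R)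
    (xs : Fin 0 → R) : Holds R φ ↔
      @BoundedFormula.Realize Language.ring R (Ring.compatibleRingOfRing R).toStructure _ _ φ v
        xs := by
  rw [Subsingleton.elim v (@default _ Unique.instInhabited),
    Subsingleton.elim xs (@default _ Unique.instInhabited)]
  exact Iff.rfl

theorem isExistential_of_blocks {e : Bool} {n k : ℕ} {φ : Language.ring.BoundedFormula Empty k}
    (h : Blocks e n φ) : (n = 0 → φ.IsQF) ∧ (e = true → n = 1 → φ.IsExistential) := by
  induction h with
  | qf h => exact ⟨fun _ => h, fun _ h1 => absurd h1 (by norm_num)⟩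
  | ex h ih =>
    refine ⟨fun h0 => absurd h0 (by omega), fun _ h1 => ?_⟩
    exact BoundedFormula.IsExistential.ex
      (BoundedFormula.IsExistential.of_isQF (ih.1 (by omega)))
  | ex_same h ih =>
    refine ⟨fun h0 => absurd h0 (by omega), fun h1 h2 => ?_⟩
    exact BoundedFormula.IsExistential.ex (ih.2 h1 h2)
  | all h ih => exact ⟨fun h0 => absurd h0 (by omega), fun h1 => absurd h1 (by simp)⟩
  | all_same h ih => exact ⟨fun h0 => absurd h0 (by omega), fun h1 => absurd h1 (by simp)⟩

theorem blocks_allN {n k : ℕ} : ∀ (m : ℕ) (φ : Language.ring.BoundedFormula Empty (k + m)),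
    Blocks false (n + 1) φ → Blocks false (n + 1) (allN m φ)
  | 0, _, h => h
  | m + 1, φ, h => blocks_allN m φ.all (Blocks.all_same h)

theorem blocks_allN' {n k : ℕ} (m : ℕ) (φ : Language.ring.BoundedFormula Empty (k + (m + 1)))
    (h : Blocks true n φ) : Blocks false (n + 1) (allN (m + 1) φ) :=
  blocks_allN m φ.all (Blocks.all h)

theorem blocks_exN {n k : ℕ} : ∀ (m : ℕ) (φ : Language.ring.BoundedFormula Empty (k + m)),
    Blocks true (n + 1) φ → Blocks true (n + 1) (exN m φ)
  | 0, _, h => h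
  | m + 1, φ, h => blocks_exN m φ.ex (Blocks.ex_same h)

theorem blocks_exN' {n k : ℕ} (m : ℕ) (φ : Language.ring.BoundedFormula Empty (k + (m + 1)))
    (h : Blocks false n φ) : Blocks true (n + 1) (exN (m + 1) φ) :=
  blocks_exN m φ.ex (Blocks.ex h)

/-- the embedding `F(t) → ℝ(t)` -/
theorem exists_embedding (F : IntermediateField ℚ ℝ) :
    ∃ f : RatFunc F →+* RatFunc ℝ, f RatFunc.X = RatFunc.X ∧
      ∀ a : F, f (RatFunc.C a) = RatFunc.C (a : ℝ) := by
  have hinj : Function.Injective ((algebraMap ℝ[X] (RatFunc ℝ)).comp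
      (mapRingHom (algebraMap F ℝ))) := by
    rw [RingHom.coe_comp]
    exact (RatFunc.algebraMap_injective ℝ).comp
      (Polynomial.map_injective _ (algebraMap F ℝ).injective)
  refine ⟨IsFractionRing.lift (A := (F)[X]) (K := RatFunc F) hinj, ?_, ?_⟩
  · rw [← RatFunc.algebraMap_X, IsFractionRing.lift_algebraMap]
    simp
  · intro a
    rw [← RatFunc.algebraMap_C, IsFractionRing.lift_algebraMap]
    simp

/-- No `Σ_1` sentence separates `F(t)` and `ℝ(t)`. -/
theorem lower (F : IntermediateField ℚ ℝ) (hF : ∀ x : ℝ, IsAlgebraic F x → x ∈ F)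
    (φ : Language.ring.Sentence) (h : Blocks true 1 φ) :
    Holds (RatFunc F) φ ↔ Holds (RatFunc ℝ) φ := by
  have : Fact (∀ x : ℝ, IsAlgebraic F x → x ∈ F) := ⟨hF⟩
  have hE := (isExistential_of_blocks h).2 rfl rfl
  let i1 := FirstOrder.Ring.compatibleRingOfRing (RatFunc F)
  let i2 := FirstOrder.Ring.compatibleRingOfRing (RatFunc ℝ)
  constructor
  · intro h1
    obtain ⟨f, -⟩ := exists_embedding F
    exact (holds_iff φ Empty.elim (f ∘ Fin.elim0)).2
      (ex_up hE f Empty.elim Empty.elim Fin.elim0 ((holds_iff φ Empty.elim Fin.elim0).1 h1))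
  · intro h1
    obtain ⟨xs, h2⟩ := RF.ex_down (F := F) hE Empty.elim Empty.elim Fin.elim0
      ((holds_iff φ Empty.elim Fin.elim0).1 h1)
    exact (holds_iff φ Empty.elim xs).2 h2

/-- the polynomial of the separating sentence -/
noncomputable def sepPoly (m : ℕ) (q : MvPolynomial (Option (Unit ⊕ Fin m)) ℤ) :
    MvPolynomial (Fin ((0 + 3) + (m + 2))) ℤ :=
  let c : MvPolynomial (Fin ((0 + 3) + (m + 2))) ℤ :=
    MvPolynomial.X (Fin.castAdd (m + 2) (Fin.natAdd 0 0))
  let y₀ : MvPolynomial (Fin ((0 + 3) + (m + 2))) ℤ :=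
    MvPolynomial.X (Fin.castAdd (m + 2) (Fin.natAdd 0 1))
  let T : MvPolynomial (Fin ((0 + 3) + (m + 2))) ℤ :=
    MvPolynomial.X (Fin.castAdd (m + 2) (Fin.natAdd 0 2))
  let z : MvPolynomial (Fin ((0 + 3) + (m + 2))) ℤ :=
    MvPolynomial.X (Fin.natAdd (0 + 3) (Fin.natAdd m 0))
  let y : MvPolynomial (Fin ((0 + 3) + (m + 2))) ℤ :=
    MvPolynomial.X (Fin.natAdd (0 + 3) (Fin.natAdd m 1))
  (z * (y₀ ^ 2 - (1 + c ^ 4)) - 1) * (y ^ 2 - (1 + T ^ 4)) *
    MvPolynomial.eval₂ (Int.castRingHom _) (fun o => o.elim T (Sum.elim (fun _ => c)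
      (fun j => MvPolynomial.X (Fin.natAdd (0 + 3) (Fin.castAdd 2 j))))) q

theorem eval_sepPoly {m : ℕ} (q : MvPolynomial (Option (Unit ⊕ Fin m)) ℤ) {R : Type} [CommRing R]
    (x : Fin 0 → R) (u : Fin 3 → R) (w : Fin (m + 2) → R) :
    MvPolynomial.eval₂ (Int.castRingHom R) (Fin.append (Fin.append x u) w) (sepPoly m q) =
      (w (Fin.natAdd m 0) * (u 1 ^ 2 - (1 + u 0 ^ 4)) - 1) *
        (w (Fin.natAdd m 1) ^ 2 - (1 + u 2 ^ 4)) *
        MvPolynomial.eval₂ (Int.castRingHom R) (fun o => o.elim (u 2) (Sum.elim (fun _ => u 0)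
          (fun j => w (Fin.castAdd 2 j)))) q := by
  have h1 : ∀ i : Fin 3, Fin.append (Fin.append x u) w (Fin.castAdd (m + 2) (Fin.natAdd 0 i)) =
      u i := fun i => by rw [Fin.append_left, Fin.append_right]
  have h2 : ∀ i : Fin (m + 2), Fin.append (Fin.append x u) w (Fin.natAdd (0 + 3) i) = w i :=
    fun i => by rw [Fin.append_right]
  have h3 : MvPolynomial.eval₂ (Int.castRingHom R) (Fin.append (Fin.append x u) w)
      (MvPolynomial.eval₂ (Int.castRingHom (MvPolynomial (Fin ((0 + 3) + (m + 2))) ℤ))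
        (fun o : Option (Unit ⊕ Fin m) =>
        o.elim (MvPolynomial.X (Fin.castAdd (m + 2) (Fin.natAdd 0 2)))
        (Sum.elim (fun _ => MvPolynomial.X (Fin.castAdd (m + 2) (Fin.natAdd 0 0)))
        (fun j => MvPolynomial.X (Fin.natAdd (0 + 3) (Fin.castAdd 2 j))))) q) =
      MvPolynomial.eval₂ (Int.castRingHom R) (fun o => o.elim (u 2) (Sum.elim (fun _ => u 0)
          (fun j => w (Fin.castAdd 2 j)))) q := by
    have h4 : (MvPolynomial.eval₂Hom (Int.castRingHom R) (Fin.append (Fin.append x u) w)).comp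
      (MvPolynomial.eval₂Hom (Int.castRingHom (MvPolynomial (Fin ((0 + 3) + (m + 2))) ℤ))
        (fun o : Option (Unit ⊕ Fin m) =>
        o.elim (MvPolynomial.X (Fin.castAdd (m + 2) (Fin.natAdd 0 2)))
        (Sum.elim (fun _ => MvPolynomial.X (Fin.castAdd (m + 2) (Fin.natAdd 0 0)))
        (fun j => MvPolynomial.X (Fin.natAdd (0 + 3) (Fin.castAdd 2 j)))))) =
      MvPolynomial.eval₂Hom (Int.castRingHom R) (fun o => o.elim (u 2) (Sum.elim (fun _ => u 0)
          (fun j => w (Fin.castAdd 2 j)))) := by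
      apply MvPolynomial.ringHom_ext
      · intro n
        simp
      · intro o
        rcases o with _ | (_ | b)
        · simp only [RingHom.comp_apply, MvPolynomial.coe_eval₂Hom, MvPolynomial.eval₂_X,
            Option.elim_none, h1]
        · simp only [RingHom.comp_apply, MvPolynomial.coe_eval₂Hom, MvPolynomial.eval₂_X,
            Option.elim_some, Sum.elim_inl, h1]
        · simp only [RingHom.comp_apply, MvPolynomial.coe_eval₂Hom, MvPolynomial.eval₂_X,
            Option.elim_some, Sum.elim_inr, h2]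
    exact congrArg (fun g => g q) h4
  rw [← h3]
  simp only [sepPoly, MvPolynomial.eval₂_mul, MvPolynomial.eval₂_sub, MvPolynomial.eval₂_add,
    MvPolynomial.eval₂_pow, MvPolynomial.eval₂_one, MvPolynomial.eval₂_X, h1, h2]

/-- For every real number `ρ` with Diophantine cuts some `Σ_2` sentence holds in `F(t)` exactly if
`ρ ∈ F`, for all real closed subfields `F` of `ℝ`. -/
theorem upper {ρ : ℝ} (hρ : DiophCuts ρ) : ∃ φ : Language.ring.Sentence, Blocks true 2 φ ∧
    Holds (RatFunc ℝ) φ ∧ ∀ F : IntermediateField ℚ ℝ, (∀ x : ℝ, IsAlgebraic F x → x ∈ F) →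
      (Holds (RatFunc F) φ ↔ ρ ∈ F) := by
  classical
  obtain ⟨β, hβ, p, hp⟩ := ne_cuts_TD hρ
  obtain ⟨m, ⟨eq⟩⟩ := Finite.exists_equiv_fin β
  set q : MvPolynomial (Option (Unit ⊕ Fin m)) ℤ :=
    MvPolynomial.rename (Option.map (Sum.map id eq)) p with hq
  have hev : ∀ {K : Type} [CommRing K] (T c : K) (w : Fin m → K),
      MvPolynomial.eval₂ (Int.castRingHom K) (fun o => o.elim T (Sum.elim (fun _ => c) w)) q =
        MvPolynomial.eval₂ (Int.castRingHom K)
          (fun o => o.elim T (Sum.elim (fun _ => c) (w ∘ eq))) p := by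
    intro K _ T c w
    rw [hq, MvPolynomial.eval₂_rename]
    congr 1
    funext o
    rcases o with _ | (_ | b) <;> rfl
  -- the universal part in `ℝ(t)`
  have huniv : ∀ w : Fin (m + 2) → RatFunc ℝ,
      MvPolynomial.eval₂ (Int.castRingHom (RatFunc ℝ)) (Fin.append (Fin.append Fin.elim0
        ![RatFunc.C ρ, RatFunc.C (Real.sqrt (1 + ρ ^ 4)), RatFunc.X]) w) (sepPoly m q) ≠ 0 := by
    intro w h0
    rw [eval_sepPoly] at h0
    simp only [Matrix.cons_val_zero, Matrix.cons_val_one, Matrix.cons_val] at h0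
    have hs : (RatFunc.C (Real.sqrt (1 + ρ ^ 4)) : RatFunc ℝ) ^ 2 -
        (1 + RatFunc.C ρ ^ 4) = 0 := by
      rw [← map_pow, ← map_pow, Real.sq_sqrt (by positivity), map_add, map_one, map_pow]
      ring
    rw [hs, mul_zero, zero_sub] at h0
    rcases mul_eq_zero.1 h0 with h1 | h1
    · rcases mul_eq_zero.1 h1 with h2 | h2
      · exact absurd h2 (neg_ne_zero.2 one_ne_zero)
      · obtain ⟨c, hc⟩ := const_of_sq (sub_eq_zero.1 h2)
        exact X_ne_C c hc
    · rw [hev] at h1
      refine (hp ρ).2 ⟨(fun j => w (Fin.castAdd 2 j)) ∘ eq, ?_⟩ rfl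
      rw [aeval_int_eq]
      exact h1
  refine ⟨exN 3 (allN (m + 2) (atom (sepPoly m q)).not),
    blocks_exN' 2 _ (blocks_allN' (m + 1) _ (Blocks.qf (atom_qf _).not)), ?_, ?_⟩
  · let i2 := FirstOrder.Ring.compatibleRingOfRing (RatFunc ℝ)
    refine (holds_iff _ Empty.elim Fin.elim0).2 ?_
    rw [realize_exN]
    refine ⟨![RatFunc.C ρ, RatFunc.C (Real.sqrt (1 + ρ ^ 4)), RatFunc.X], ?_⟩
    rw [realize_allN]
    intro w
    rw [BoundedFormula.realize_not, realize_atom]
    exact huniv w
  · intro F hF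
    have : Fact (∀ x : ℝ, IsAlgebraic F x → x ∈ F) := ⟨hF⟩
    let i1 := FirstOrder.Ring.compatibleRingOfRing (RatFunc F)
    constructor
    swap
    · intro hρF
      obtain ⟨b, hb⟩ := RF.sqrt_mem (F := F) (a := 1 + ⟨ρ, hρF⟩ ^ 4) (by push_cast; positivity)
      have hb' : ((b : ℝ)) ^ 2 = 1 + ρ ^ 4 := by
        have := congrArg (fun z : F => (z : ℝ)) hb
        simpa using this
      refine (holds_iff _ Empty.elim Fin.elim0).2 ?_
      rw [realize_exN]
      -- the nonnegative square root
      obtain ⟨b', hb'1, hb'2⟩ : ∃ b' : F, (b' : ℝ) = Real.sqrt (1 + ρ ^ 4) ∧ b' ^ 2 = b ^ 2 := by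
        rcases le_total 0 (b : ℝ) with h | h
        · exact ⟨b, by rw [← hb', Real.sqrt_sq h], rfl⟩
        · refine ⟨-b, ?_, by ring⟩
          rw [← hb', ← neg_sq, Real.sqrt_sq (by linarith)]
          push_cast
          rfl
      refine ⟨![RatFunc.C ⟨ρ, hρF⟩, RatFunc.C b', RatFunc.X], ?_⟩
      rw [realize_allN]
      intro w
      rw [BoundedFormula.realize_not, realize_atom]
      intro h0
      obtain ⟨f, hfX, hfC⟩ := exists_embedding F
      refine huniv (f ∘ w) ?_
      have h1 := congrArg f h0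
      rw [map_zero, ← MvPolynomial.coe_eval₂Hom, ← RingHom.comp_apply] at h1
      rw [← h1, ← MvPolynomial.coe_eval₂Hom]
      congr 1
      apply MvPolynomial.ringHom_ext
      · intro n
        simp
      · intro i
        simp only [MvPolynomial.coe_eval₂Hom, MvPolynomial.eval₂_X, RingHom.comp_apply]
        refine Fin.addCases (fun i => ?_) (fun i => ?_) i
        · rw [Fin.append_left, Fin.append_left]
          refine Fin.addCases (fun i => i.elim0) (fun i => ?_) i
          rw [Fin.append_right, Fin.append_right]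
          fin_cases i
          · simp [hfC]
          · simp [hfC, hb'1]
          · simp [hfX]
        · rw [Fin.append_right, Fin.append_right]
          rfl
    · intro hH
      by_contra hρF
      have hH' := (holds_iff _ Empty.elim Fin.elim0).1 hH
      rw [realize_exN] at hH'
      obtain ⟨u, hu⟩ := hH'
      rw [realize_allN] at hu
      -- it suffices to find a zero
      have hu' : ∀ (z y : RatFunc F) (w : Fin m → RatFunc F),
          (z * (u 1 ^ 2 - (1 + u 0 ^ 4)) - 1) * (y ^ 2 - (1 + u 2 ^ 4)) *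
          MvPolynomial.eval₂ (Int.castRingHom (RatFunc F))
            (fun o => o.elim (u 2) (Sum.elim (fun _ => u 0) w)) q ≠ 0 := by
        intro z y w h0
        have h1 := hu (Fin.append w ![z, y])
        rw [BoundedFormula.realize_not, realize_atom, eval_sepPoly] at h1
        apply h1
        rw [Fin.append_right, Fin.append_right]
        have h2 : (fun j => Fin.append w ![z, y] (Fin.castAdd 2 j)) = w := by
          funext j
          rw [Fin.append_left]
        rw [h2]
        exact h0
      clear hu hH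
      by_cases hA : u 1 ^ 2 - (1 + u 0 ^ 4) = 0
      swap
      · apply hu' (u 1 ^ 2 - (1 + u 0 ^ 4))⁻¹ 0 0
        rw [inv_mul_cancel₀ hA]
        ring
      obtain ⟨r, hr⟩ := const_of_sq (sub_eq_zero.1 hA)
      by_cases hT : ∃ s, u 2 = RatFunc.C s
      · obtain ⟨s, hs⟩ := hT
        obtain ⟨b, hb⟩ := RF.sqrt_mem (F := F) (a := 1 + s ^ 4) (by push_cast; positivity)
        apply hu' 0 (RatFunc.C b) 0
        have h3 : (RatFunc.C b : RatFunc F) ^ 2 - (1 + u 2 ^ 4) = 0 := by
          rw [hs, ← map_pow, hb, map_add, map_one, map_pow]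
          ring
        rw [h3]
        ring
      · obtain ⟨σ, hσX, hσC⟩ := exists_subst (u 2) hT
        obtain ⟨w, hw⟩ := (hp (r : ℝ)).1 (fun h => hρF (h ▸ r.2))
        obtain ⟨w', hw'⟩ := RF.transfer_point p r w hw
        rw [aeval_int_eq] at hw'
        apply hu' 0 0 (σ ∘ w' ∘ eq.symm)
        have h4 : MvPolynomial.eval₂ (Int.castRingHom (RatFunc F))
            (fun o => o.elim (u 2) (Sum.elim (fun _ => u 0) (σ ∘ w' ∘ eq.symm))) q = 0 := by
          rw [hev]
          have h5 := congrArg σ hw'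
          rw [map_zero, ← MvPolynomial.coe_eval₂Hom, ← RingHom.comp_apply] at h5
          rw [← h5, ← MvPolynomial.coe_eval₂Hom]
          congr 1
          apply MvPolynomial.ringHom_ext
          · intro n
            simp
          · intro o
            rcases o with _ | (_ | b)
            · simp [hσX]
            · simp [hσC, hr]
            · simp
        rw [h4]
        ring

end Pool.Agent.Y403.RF
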