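import Pool.Agent.H699R2.Spec

/-!
# Specialisations into a real closed subfield of `ℝ`

Adapted from `Pool.Agent.H699R2.Spec` (the case of the real algebraic numbers).
-/

open Filter Topology Polynomial

namespace Pool.Agent.Y403.RF

noncomputable section

open Pool.Agent.H699R2 (sign_change exists_rat_seq)

variable {F : IntermediateField ℚ ℝ}

theorem mem_F_of_root [hF : Fact (∀ x : ℝ, IsAlgebraic F x → x ∈ F)] {p : ℝ[X]} {q : (F)[X]}
    (hpq : q.map (algebraMap F ℝ) = p) (hp : p ≠ 0) {z : ℝ} (hz : p.eval z = 0) : z ∈ F := by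
  apply hF.out
  refine ⟨q, ?_, ?_⟩
  · rintro rfl
    apply hp
    rw [← hpq, Polynomial.map_zero]
  · rw [aeval_def, eval₂_eq_eval_map, hpq, hz]

/-- `φ : B → ℝ` is a limit of specialisations `Φ i : B → F`, each of which eventually kills the
kernel of `φ`. -/
def Good (B : Type) [CommRing B] [Algebra F B] (φ : B →ₐ[F] ℝ) : Prop :=
  ∃ (ι : Type) (l : Filter ι) (_ : l.NeBot) (Φ : ι → B →ₐ[F] F),
    (∀ᶠ i in l, ∀ b, φ b = 0 → Φ i b = 0) ∧
      ∀ b, Tendsto (fun i => ((Φ i b : F) : ℝ)) l (𝓝 (φ b))

theorem good_base : Good F (Algebra.ofId F ℝ) := by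
  refine ⟨Unit, ⊤, inferInstance, fun _ => AlgHom.id _ _, ?_, ?_⟩
  · refine Eventually.of_forall fun _ b hb => ?_
    have : (b : ℝ) = 0 := hb
    simpa using this
  · intro b
    exact tendsto_const_nhds

/-- evaluation in the limit -/
theorem tendsto_eval {B : Type} [CommRing B] [Algebra F B] {φ : B →ₐ[F] ℝ}
    {ι : Type} {l : Filter ι} {Φ : ι → B →ₐ[F] F}
    (h : ∀ b, Tendsto (fun i => ((Φ i b : F) : ℝ)) l (𝓝 (φ b)))
    {u : ℝ} {v : ι → F} (hv : Tendsto (fun i => ((v i : F) : ℝ)) l (𝓝 u)) (f : B[X]) :
    Tendsto (fun i => ((aevalTower (Φ i) (v i) f : F) : ℝ)) l (𝓝 (aevalTower φ u f)) := by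
  induction f using Polynomial.induction_on' with
  | add p q hp hq =>
    simp only [map_add]
    exact hp.add hq
  | monomial n a =>
    have e1 : ∀ i, ((aevalTower (Φ i) (v i) (monomial n a) : F) : ℝ) =
        ((Φ i a : F) : ℝ) * ((v i : F) : ℝ) ^ n := by
      intro i
      rw [← C_mul_X_pow_eq_monomial]
      simp
    have e2 : aevalTower φ u (monomial n a) = φ a * u ^ n := by
      rw [← C_mul_X_pow_eq_monomial]
      simp
    simp only [e1, e2]
    exact (h a).mul (hv.pow n)


theorem aevalTower_eq {B : Type} [CommRing B] [Algebra F B] (φ : B →ₐ[F] ℝ) (u : ℝ)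
    (f : B[X]) : aevalTower φ u f = (f.map (φ : B →+* ℝ)).eval u := by
  rw [eval_map]; rfl

theorem aevalTower_eq' {B : Type} [CommRing B] [Algebra F B] (φ : B →ₐ[F] F) (u : F)
    (f : B[X]) : aevalTower φ u f = (f.map (φ : B →+* F)).eval u := by
  rw [eval_map]; rfl

theorem ker_transfer {B : Type} [CommRing B] [Algebra F B] {φ : B →ₐ[F] ℝ}
    {Ψ : B →ₐ[F] F} (h : ∀ b, φ b = 0 → Ψ b = 0) {f : B[X]}
    (hf : f.map (φ : B →+* ℝ) = 0) : f.map (Ψ : B →+* F) = 0 := by
  refine Polynomial.ext fun n => ?_
  have := congrArg (fun p => p.coeff n) hf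
  simp only [coeff_map, coeff_zero] at this ⊢
  exact h _ this

theorem good_step [hF : Fact (∀ x : ℝ, IsAlgebraic F x → x ∈ F)] {B : Type} [CommRing B] [Algebra F B] {φ : B →ₐ[F] ℝ} (hφ : Good B φ)
    (u : ℝ) : Good B[X] (aevalTower φ u) := by
  classical
  obtain ⟨ι, l, hl, Φ, hker, hlim⟩ := hφ
  by_cases hcase : ∀ g : B[X], aevalTower φ u g = 0 → g.map (φ : B →+* ℝ) = 0
  · -- `u` is transcendental over the image of `φ`
    obtain ⟨q, hq⟩ := exists_rat_seq u
    refine ⟨ι × ℕ, l ×ˢ atTop, inferInstance,
      fun p => aevalTower (Φ p.1) (algebraMap ℚ F (q p.2)), ?_, ?_⟩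
    · filter_upwards [hker.prod_inl (atTop : Filter ℕ)] with p hp f hf
      rw [aevalTower_eq', ker_transfer hp (hcase f hf), eval_zero]
    · intro f
      apply tendsto_eval
      · intro b
        exact (hlim b).comp tendsto_fst
      · have : ∀ p : ι × ℕ, (((algebraMap ℚ F (q p.2)) : F) : ℝ) = (q p.2 : ℝ) := by
          intro p
          rfl
        simp only [this]
        exact hq.comp tendsto_snd
  · push Not at hcase
    -- minimal relation
    have hex : ∃ n, ∃ g : B[X], g.natDegree = n ∧ aevalTower φ u g = 0 ∧
        g.map (φ : B →+* ℝ) ≠ 0 := by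
      obtain ⟨g, h1, h2⟩ := hcase
      exact ⟨_, g, rfl, h1, h2⟩
    obtain ⟨g, hgn, hg0, hg1⟩ := Nat.find_spec hex
    have hmin : ∀ f : B[X], f.natDegree < g.natDegree → aevalTower φ u f = 0 →
        f.map (φ : B →+* ℝ) = 0 := by
      intro f hf h0
      by_contra h1
      have := Nat.find_min hex (m := f.natDegree) (by rw [← hgn]; exact hf)
      exact this ⟨f, rfl, h0, h1⟩
    have hlc : φ g.leadingCoeff ≠ 0 := by
      intro h0
      have hg' : g ≠ 0 := by
        rintro rfl
        simp at hg1
      have h2 : g.eraseLead.map (φ : B →+* ℝ) = g.map (φ : B →+* ℝ) := by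
        conv_rhs => rw [← g.eraseLead_add_C_mul_X_pow]
        rw [Polynomial.map_add, Polynomial.map_mul, map_C]
        simp [h0]
      have h3 : aevalTower φ u g.eraseLead = 0 := by
        rw [aevalTower_eq, h2, ← aevalTower_eq, hg0]
      rcases Nat.eq_zero_or_pos g.natDegree with h4 | h4
      · apply hg1
        rw [eq_C_of_natDegree_eq_zero h4, map_C]
        have : g.leadingCoeff = g.coeff 0 := by rw [leadingCoeff, h4]
        rw [← this]
        simp [h0]
      · have h5 : g.eraseLead.natDegree < g.natDegree := by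
          have := g.eraseLead_natDegree_le
          omega
        exact hg1 (h2 ▸ hmin _ h5 h3)
    have hdeg : 0 < g.natDegree := by
      rcases Nat.eq_zero_or_pos g.natDegree with h4 | h4
      · exfalso
        rw [eq_C_of_natDegree_eq_zero h4] at hg0
        have h5 : φ (g.coeff 0) = 0 := by simpa using hg0
        apply hlc
        rw [leadingCoeff, h4, h5]
      · exact h4
    set G : ℝ[X] := g.map (φ : B →+* ℝ) with hG
    have hG0 : G.eval u = 0 := by rw [← aevalTower_eq, hg0]
    have hG1 : G.derivative.eval u ≠ 0 := by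
      intro h0
      rw [hG, derivative_map, ← aevalTower_eq] at h0
      have h1 := hmin _ (natDegree_derivative_lt hdeg.ne') h0
      have h2 := congrArg (fun p => p.coeff (g.natDegree - 1)) h1
      simp only [coeff_map, coeff_derivative, coeff_zero] at h2
      rw [Nat.sub_add_cancel hdeg] at h2
      rw [map_mul] at h2
      rcases mul_eq_zero.1 h2 with h3 | h3
      · exact hlc h3
      · simp only [map_add, map_natCast, map_one] at h3
        have : (0 : ℝ) < ((g.natDegree - 1 : ℕ) : ℝ) + 1 := by positivity
        linarith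
    -- the specialised polynomials
    set Gi : ι → ℝ[X] := fun i => (g.map (Φ i : B →+* F)).map (algebraMap F ℝ) with hGi
    have hGi_eval : ∀ x : ℝ, Tendsto (fun i => (Gi i).eval x) l (𝓝 (G.eval x)) := by
      intro x
      have e1 : ∀ i, (Gi i).eval x = g.sum fun n a => ((Φ i a : F) : ℝ) * x ^ n := by
        intro i
        simp only [hGi]
        rw [Polynomial.map_map, eval_map, eval₂_eq_sum]
        rfl
      have e2 : G.eval x = g.sum fun n a => φ a * x ^ n := by
        rw [hG, eval_map, eval₂_eq_sum]
        rfl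
      simp only [e1, e2, Polynomial.sum]
      exact tendsto_finsetSum _ fun n _ => (hlim _).mul_const _
    have hGi_ne : ∀ᶠ i in l, Gi i ≠ 0 := by
      have h1 : ∀ᶠ i in l, ((Φ i g.leadingCoeff : F) : ℝ) ≠ 0 :=
        (hlim g.leadingCoeff).eventually_ne hlc
      filter_upwards [h1] with i hi h0
      apply hi
      have h2 := congrArg (fun p => p.coeff g.natDegree) h0
      simpa [hGi, coeff_map] using h2
    have hroot : ∀ ε > 0, ∀ᶠ i in l, ∃ z, |z - u| < ε ∧ (Gi i).eval z = 0 := by
      intro ε hε
      obtain ⟨a, b, ha1, ha2, hb1, hb2, hab⟩ := sign_change G u hG0 hG1 ε hε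
      have h1 := ((hGi_eval a).mul (hGi_eval b)).eventually (gt_mem_nhds hab)
      filter_upwards [h1] with i hi
      have hcont : ContinuousOn (fun x => (Gi i).eval x) (Set.uIcc a b) :=
        (Gi i).continuous.continuousOn
      have h2 := intermediate_value_uIcc hcont
      have h3 : (0 : ℝ) ∈ Set.uIcc ((Gi i).eval a) ((Gi i).eval b) := by
        rw [Set.mem_uIcc]
        rcases mul_neg_iff.1 hi with ⟨h4, h5⟩ | ⟨h4, h5⟩
        · right; exact ⟨h5.le, h4.le⟩
        · left; exact ⟨h4.le, h5.le⟩
      obtain ⟨z, hz1, hz2⟩ := h2 h3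
      rw [Set.uIcc_of_le (by linarith)] at hz1
      exact ⟨z, by rw [abs_lt]; constructor <;> linarith [hz1.1, hz1.2], hz2⟩
    -- choose the closest root
    have hclosest : ∀ᶠ i in l, ∃ z : F, (Gi i).eval (z : ℝ) = 0 ∧
        ∀ z' : ℝ, (Gi i).eval z' = 0 → |(z : ℝ) - u| ≤ |z' - u| := by
      filter_upwards [hGi_ne, hroot 1 one_pos] with i hi ⟨z, _, hz⟩
      have hne : (Gi i).roots.toFinset.Nonempty := ⟨z, by simp [hi, hz]⟩
      obtain ⟨w, hw1, hw2⟩ := (Gi i).roots.toFinset.exists_min_image (fun z => |z - u|) hne
      have hw3 : (Gi i).eval w = 0 := by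
        have := (mem_roots hi).1 (Multiset.mem_toFinset.1 hw1)
        exact this
      refine ⟨⟨w, mem_F_of_root rfl hi hw3⟩, hw3, ?_⟩
      intro z' hz'
      exact hw2 z' (by simp [hi, hz'])
    set v : ι → F := fun i => if h : ∃ z : F, (Gi i).eval (z : ℝ) = 0 ∧
        ∀ z' : ℝ, (Gi i).eval z' = 0 → |(z : ℝ) - u| ≤ |z' - u| then h.choose else 0 with hv
    have hvspec : ∀ᶠ i in l, (Gi i).eval (v i : ℝ) = 0 ∧
        ∀ z' : ℝ, (Gi i).eval z' = 0 → |(v i : ℝ) - u| ≤ |z' - u| := by
      filter_upwards [hclosest] with i hi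
      rw [hv]
      simp only [hi, dif_pos]
      exact hi.choose_spec
    have hvlim : Tendsto (fun i => ((v i : F) : ℝ)) l (𝓝 u) := by
      rw [Metric.tendsto_nhds]
      intro ε hε
      filter_upwards [hvspec, hroot ε hε] with i hi ⟨z, hz1, hz2⟩
      rw [Real.dist_eq]
      exact (hi.2 z hz2).trans_lt hz1
    refine ⟨ι, l, hl, fun i => aevalTower (Φ i) (v i), ?_, ?_⟩
    · have hlci : ∀ᶠ i in l, Φ i g.leadingCoeff ≠ 0 := by
        filter_upwards [(hlim g.leadingCoeff).eventually_ne hlc] with i hi h0
        exact hi (by rw [h0]; rfl)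
      filter_upwards [hker, hvspec, hlci] with i hi hvi hlci f hf
      have hgi : aevalTower (Φ i) (v i) g = 0 := by
        have h1 := hvi.1
        rw [hGi, eval_map_algebraMap] at h1
        have h2 : aeval ((v i : F) : ℝ) (g.map (Φ i : B →+* F)) =
            ((eval (v i) (g.map (Φ i : B →+* F)) : F) : ℝ) := by
          have := aeval_algebraMap_apply ℝ (v i) (g.map (Φ i : B →+* F))
          rw [← coe_aeval_eq_eval]
          exact this
        rw [h2] at h1
        rw [aevalTower_eq']
        exact_mod_cast h1
      -- strong induction on the degree of `f`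
      have key : ∀ n : ℕ, ∀ f : B[X], f.natDegree ≤ n → aevalTower φ u f = 0 →
          aevalTower (Φ i) (v i) f = 0 := by
        intro n
        induction n with
        | zero =>
          intro f hfn hf
          have h1 := hmin f (by omega) hf
          rw [aevalTower_eq', ker_transfer hi h1, eval_zero]
        | succ n ih =>
          intro f hfn hf
          by_cases hlt : f.natDegree < g.natDegree
          · have h1 := hmin f hlt hf
            rw [aevalTower_eq', ker_transfer hi h1, eval_zero]
          · push Not at hlt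
            set f1 : B[X] := C g.leadingCoeff * f -
              C f.leadingCoeff * X ^ (f.natDegree - g.natDegree) * g with hf1
            have hd : f1.natDegree ≤ n := by
              have h2 : f1.natDegree ≤ n + 1 := by
                refine (natDegree_sub_le _ _).trans (max_le ?_ ?_)
                · exact (natDegree_C_mul_le _ _).trans hfn
                · refine natDegree_mul_le.trans ?_
                  have := natDegree_C_mul_X_pow_le f.leadingCoeff (f.natDegree - g.natDegree)
                  omega
              rcases Nat.lt_or_ge f1.natDegree (n + 1) with h3 | h3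
              · omega
              · exfalso
                have h4 : f1.natDegree = n + 1 := le_antisymm h2 h3
                have h5 : f1.coeff (n + 1) = 0 := by
                  rw [hf1, coeff_sub, coeff_C_mul, mul_assoc, coeff_C_mul]
                  rcases Nat.lt_or_ge f.natDegree (n + 1) with h6 | h6
                  · rw [coeff_eq_zero_of_natDegree_lt h6]
                    have h7 : (X ^ (f.natDegree - g.natDegree) * g : B[X]).natDegree < n + 1 := by
                      refine lt_of_le_of_lt natDegree_mul_le ?_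
                      have := natDegree_X_pow_le (R := B) (f.natDegree - g.natDegree)
                      omega
                    rw [coeff_eq_zero_of_natDegree_lt h7]
                    simp
                  · have h8 : f.natDegree = n + 1 := le_antisymm hfn h6
                    have h9 : (X ^ (f.natDegree - g.natDegree) * g : B[X]).coeff (n + 1)
                        = g.leadingCoeff := by
                      have : n + 1 = g.natDegree + (f.natDegree - g.natDegree) := by omega
                      rw [this, mul_comm, coeff_mul_X_pow]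
                      rfl
                    rw [h9, ← h8]
                    change g.leadingCoeff * f.leadingCoeff - f.leadingCoeff * g.leadingCoeff = 0
                    ring
                have h6 : f1.leadingCoeff = 0 := by rw [leadingCoeff, h4, h5]
                rw [leadingCoeff_eq_zero] at h6
                rw [h6] at h4
                simp at h4
            have hz : aevalTower φ u f1 = 0 := by
              rw [hf1, map_sub, map_mul, map_mul, hf, hg0]
              simp
            have h3 := ih f1 hd hz
            rw [hf1, map_sub, map_mul, map_mul, hgi, mul_zero, sub_zero, aevalTower_C] at h3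
            exact (mul_eq_zero.1 h3).resolve_left hlci
      exact key _ f le_rfl hf
    · intro f
      exact tendsto_eval hlim hvlim f


theorem good_equiv {B B' : Type} [CommRing B] [Algebra F B] [CommRing B'] [Algebra F B']
    (e : B' ≃ₐ[F] B) {φ : B →ₐ[F] ℝ} (h : Good B φ) : Good B' (φ.comp e.toAlgHom) := by
  obtain ⟨ι, l, hl, Φ, hker, hlim⟩ := h
  refine ⟨ι, l, hl, fun i => (Φ i).comp e.toAlgHom, ?_, ?_⟩
  · filter_upwards [hker] with i hi b hb
    exact hi _ hb
  · intro b
    exact hlim _

theorem good_mv [hF : Fact (∀ x : ℝ, IsAlgebraic F x → x ∈ F)] (n : ℕ) (φ : MvPolynomial (Fin n) F →ₐ[F] ℝ) : Good _ φ := by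
  induction n with
  | zero =>
    have h := good_equiv (MvPolynomial.isEmptyAlgEquiv F (Fin 0)) good_base
    convert h using 1
    apply MvPolynomial.algHom_ext
    intro i
    exact i.elim0
  | succ n ih =>
    set e := MvPolynomial.finSuccEquiv F n with he
    set ψ : (MvPolynomial (Fin n) F)[X] →ₐ[F] ℝ := φ.comp e.symm.toAlgHom with hψ
    have h1 := good_step (ih (ψ.comp CAlgHom)) (ψ X)
    have h2 : aevalTower (ψ.comp CAlgHom) (ψ X) = ψ := by
      apply Polynomial.algHom_ext'
      · ext b
        simp
      · simp
    rw [h2] at h1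
    have h3 := good_equiv e h1
    convert h3 using 1
    rw [hψ]
    ext i
    simp

end

end Pool.Agent.Y403.RF
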